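import Pool.Agent.H41.AV.Defs

set_option autoImplicit false

/-!
# The three sums are Lipschitz (AV-LIP2)
-/

namespace Pool.Agent.H895.AV

open Equiv Finset
open Pool.Agent.H41.AV

section

variable {G : Type} [AddCommGroup G] [Fintype G] [DecidableEq G]

theorem tr_nonneg (B : ℕ) (A : G → G → Option G) (ρ τ : Perm G) (x y : G) :
    0 ≤ tr B A ρ τ x y := by
  unfold tr
  exact Nat.cast_nonneg _

theorem tr_le (B : ℕ) (A : G → G → Option G) (ρ τ : Perm G) (x y : G) :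
    tr B A ρ τ x y ≤ B := by
  unfold tr
  exact Nat.cast_le.2 (min_le_right _ _)

theorem tr_lip (B : ℕ) (A : G → G → Option G) (ρ τ ρ' τ' : Perm G) (x y : G) :
    |tr B A ρ' τ' x y - tr B A ρ τ x y| ≤
      |(cnt A ρ' τ' x y : ℝ) - cnt A ρ τ x y| := by
  unfold tr
  rw [Nat.cast_min, Nat.cast_min]
  exact abs_inf_sub_inf_le_abs _ _ _

theorem pr_nonneg (A : G → G → Option G) (x : G) : 0 ≤ pr A x := by
  unfold pr
  positivity

theorem pr_le_one (A : G → G → Option G) (h : ∀ x, (cells A x).card ≤ Fintype.card G) (x : G) :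
    pr A x ≤ 1 := by
  unfold pr
  apply div_le_one_of_le₀
  · exact Nat.cast_le.2 (h x)
  · positivity

end

theorem lip2 : S_LIP2 := by
  intro G _ _ _ A B ρ τ ρ' τ' hB hc hs
  have hB1 : (1 : ℝ) ≤ B := by exact_mod_cast hB
  refine ⟨?_, ?_, ?_⟩
  · intro y
    unfold DD
    rw [← Finset.sum_sub_distrib]
    calc |∑ x, (tr 1 A ρ' τ' x y - tr 1 A ρ τ x y)|
        ≤ ∑ x, |tr 1 A ρ' τ' x y - tr 1 A ρ τ x y| := Finset.abs_sum_le_sum_abs _ _
      _ ≤ ∑ x, |(cnt A ρ' τ' x y : ℝ) - cnt A ρ τ x y| :=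
          Finset.sum_le_sum fun x _ => tr_lip 1 A ρ τ ρ' τ' x y
      _ ≤ 4 := hs y
      _ ≤ 8 * B := by linarith
  · intro y
    unfold GG
    rw [← Finset.sum_sub_distrib]
    calc |∑ x, (pr A x * tr B A ρ' τ' x y - pr A x * tr B A ρ τ x y)|
        ≤ ∑ x, |pr A x * tr B A ρ' τ' x y - pr A x * tr B A ρ τ x y| :=
          Finset.abs_sum_le_sum_abs _ _
      _ ≤ ∑ x, |(cnt A ρ' τ' x y : ℝ) - cnt A ρ τ x y| := by
          apply Finset.sum_le_sum
          intro x _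
          rw [← mul_sub, abs_mul, abs_of_nonneg (pr_nonneg A x)]
          calc pr A x * |tr B A ρ' τ' x y - tr B A ρ τ x y|
              ≤ 1 * |tr B A ρ' τ' x y - tr B A ρ τ x y| :=
                mul_le_mul_of_nonneg_right (pr_le_one A hc x) (abs_nonneg _)
            _ = |tr B A ρ' τ' x y - tr B A ρ τ x y| := one_mul _
            _ ≤ _ := tr_lip B A ρ τ ρ' τ' x y
      _ ≤ 4 := hs y
      _ ≤ 8 * B := by linarith
  · intro y y'
    unfold HH
    rw [← Finset.sum_sub_distrib]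
    have key : ∀ x : G, |tr B A ρ' τ' x y * tr B A ρ' τ' x y' -
        tr B A ρ τ x y * tr B A ρ τ x y'| ≤
        B * |(cnt A ρ' τ' x y : ℝ) - cnt A ρ τ x y| +
        B * |(cnt A ρ' τ' x y' : ℝ) - cnt A ρ τ x y'| := by
      intro x
      have e : tr B A ρ' τ' x y * tr B A ρ' τ' x y' - tr B A ρ τ x y * tr B A ρ τ x y' =
          tr B A ρ' τ' x y' * (tr B A ρ' τ' x y - tr B A ρ τ x y) +
          tr B A ρ τ x y * (tr B A ρ' τ' x y' - tr B A ρ τ x y') := by ring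
      rw [e]
      refine (abs_add_le _ _).trans ?_
      rw [abs_mul, abs_mul, abs_of_nonneg (tr_nonneg B A ρ' τ' x y'),
        abs_of_nonneg (tr_nonneg B A ρ τ x y)]
      have hB0 : (0 : ℝ) ≤ B := by linarith
      exact add_le_add
        (mul_le_mul (tr_le B A ρ' τ' x y') (tr_lip B A ρ τ ρ' τ' x y) (abs_nonneg _) hB0)
        (mul_le_mul (tr_le B A ρ τ x y) (tr_lip B A ρ τ ρ' τ' x y') (abs_nonneg _) hB0)
    have h1 := hs y
    have h2 := hs y'
    calc |∑ x, (tr B A ρ' τ' x y * tr B A ρ' τ' x y' - tr B A ρ τ x y * tr B A ρ τ x y')|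
        ≤ ∑ x, |tr B A ρ' τ' x y * tr B A ρ' τ' x y' - tr B A ρ τ x y * tr B A ρ τ x y'| :=
          Finset.abs_sum_le_sum_abs _ _
      _ ≤ ∑ x, (B * |(cnt A ρ' τ' x y : ℝ) - cnt A ρ τ x y| +
            B * |(cnt A ρ' τ' x y' : ℝ) - cnt A ρ τ x y'|) :=
          Finset.sum_le_sum fun x _ => key x
      _ = B * (∑ x, |(cnt A ρ' τ' x y : ℝ) - cnt A ρ τ x y|) +
            B * (∑ x, |(cnt A ρ' τ' x y' : ℝ) - cnt A ρ τ x y'|) := by
          rw [Finset.sum_add_distrib, ← Finset.mul_sum, ← Finset.mul_sum]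
      _ ≤ 8 * B := by nlinarith

end Pool.Agent.H895.AV
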